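import Pool.Agent.Y379.Sylv.Thick

set_option autoImplicit false

/-!
# MP_4d3a90_co (Sylvester's four point problem, Q2): no minimiser and no local minimiser, for all
densities

For a Borel probability measure `μ` on the plane let `Sylv μ` be the probability that, of four
independent points with law `μ`, one lies in the convex hull of the other three; `1 - Sylv μ` is the
probability of convex position. `p` is the infimum of `1 - Sylv` over the uniform distributions on
the measurable sets `D` with `0 < Area D < ∞`, as in the problem.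

* `p` is also the infimum over all Borel probability measures which do not charge lines.
* `p` is not attained by any absolutely continuous probability measure (arbitrary density instead
  of uniform distributions on sets).
* No absolutely continuous measure is even a local minimiser, in the strongest sense: for every
  `ε > 0` there is a density `g` with respect to `μ`, with values in `[1 - ε, 1 + ε]`, such that
  the measure `g μ` has a strictly smaller probability of convex position.
* The last two statements hold, more generally, for all measures which do not charge lines and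
  whose support is approached from every direction at almost every point.

The proof (library `Pool.Agent.Y379.Sylv`) runs the second variation argument of
`Pool.Agent.Helper120.Sylvester` for local minimisers and for measures which do not charge lines.
-/

namespace Pool.Agent.Results.MP_4d3a90_co.NoLocalMinimum

open MeasureTheory ProbabilityTheory

/-- `D` is Lebesgue measurable with `0 < Area D < ∞`. -/
def Admissible (D : Set (ℝ × ℝ)) : Prop :=
  NullMeasurableSet D volume ∧ 0 < volume D ∧ volume D < ⊤

/-- the probability that, among four independent points with law `μ`, one lies in the convex hull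
of the other three -/
noncomputable def Sylv (μ : Measure (ℝ × ℝ)) : ℝ :=
  ((Measure.pi fun _ : Fin 4 => μ)
    {x : Fin 4 → ℝ × ℝ | ∃ i, x i ∈ convexHull ℝ (x '' {j | j ≠ i})}).toReal

/-- the values `1 - Sylv`, for the uniform distributions on admissible sets -/
def values : Set ℝ := {r : ℝ | ∃ D : Set (ℝ × ℝ), Admissible D ∧ r = 1 - Sylv (cond volume D)}

/-- the infimum `p` of the problem -/
noncomputable def p : ℝ := sInf values

/-- all lines `a z₁ + b z₂ = c` have measure zero -/
def LinesNull (μ : Measure (ℝ × ℝ)) : Prop :=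
  ∀ a b c : ℝ, (a ≠ 0 ∨ b ≠ 0) → μ {z : ℝ × ℝ | a * z.1 + b * z.2 = c} = 0

/-- at `μ`-almost every point `x`, the topological support of `μ` is approached from every
direction `u`: it contains points `x + s v` with `s > 0` arbitrarily small and `v` arbitrarily close
to `u` -/
def Thick (μ : Measure (ℝ × ℝ)) : Prop :=
  ∀ᵐ x ∂μ, ∀ u : ℝ × ℝ, ∀ η : ℝ, 0 < η → ∃ s : ℝ, ∃ v : ℝ × ℝ, 0 < s ∧ s < η ∧ dist v u < η ∧
    ∀ r : ℝ, 0 < r → 0 < μ (Metric.closedBall (x + s • v) r)

/-- `μ` is not a local minimiser of the probability of convex position -/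
def Improvable (μ : Measure (ℝ × ℝ)) : Prop :=
  ∀ ε : ℝ, 0 < ε → ∃ g : ℝ × ℝ → ℝ, Measurable g ∧ (∀ x, |g x - 1| ≤ ε) ∧ ∫ x, g x ∂μ = 1 ∧
    1 - Sylv (μ.withDensity fun x => ENNReal.ofReal (g x)) < 1 - Sylv μ

lemma ln_of (μ : Measure (ℝ × ℝ)) (h : LinesNull μ) : Y379.Sylv.LN μ := by
  intro v hv r
  have h1 : (-v.2 ≠ 0 ∨ v.1 ≠ 0) := by
    by_contra hcon
    push Not at hcon
    exact hv (Prod.ext hcon.2 (neg_eq_zero.mp hcon.1))
  have h2 := h (-v.2) v.1 r h1
  convert h2 using 2
  ext z
  change Helper120.Sylvester.cr v z = r ↔ -v.2 * z.1 + v.1 * z.2 = r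
  unfold Helper120.Sylvester.cr
  constructor <;> intro h3 <;> linarith

lemma ln_of_ac (μ : Measure (ℝ × ℝ)) (h : μ ≪ volume) : LinesNull μ := by
  intro a b c hab
  have hv : ((b, -a) : ℝ × ℝ) ≠ 0 := by
    intro h0
    rcases hab with h1 | h1
    · exact h1 (neg_eq_zero.mp (congrArg Prod.snd h0))
    · exact h1 (congrArg Prod.fst h0)
  have h2 := Y379.Sylv.LN_of_ac μ h (b, -a) hv c
  convert h2 using 2
  ext z
  change a * z.1 + b * z.2 = c ↔ Helper120.Sylvester.cr (b, -a) z = c
  unfold Helper120.Sylvester.cr
  constructor <;> intro h3 <;> simp only at h3 ⊢ <;> linarith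

lemma one_sub_Sylv (μ : Measure (ℝ × ℝ)) [IsProbabilityMeasure μ] (h : Y379.Sylv.LN μ) :
    1 - Sylv μ = Helper120.Sylvester.phi μ := by
  set Q := Measure.pi fun _ : Fin 4 => μ with hQ
  have hae := Y379.Sylv.ae_F4_ne μ h
  have h1 : Sylv μ = Q.real
      ({x : Fin 4 → ℝ × ℝ | 0 < Helper120.Sylvester.F4 (x 0) (x 1) (x 2) (x 3)}ᶜ) := by
    unfold Sylv
    rw [← hQ]
    change Q.real _ = _
    apply measureReal_congr
    filter_upwards [hae] with x hx
    apply propext
    constructor
    · intro h h'
      have h2 := (Helper120.Sylvester.exists_mem_iff x hx).1 h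
      have h3 : 0 < Helper120.Sylvester.F4 (x 0) (x 1) (x 2) (x 3) := h'
      exact lt_asymm h2 h3
    · intro h
      have h' : ¬ (0 < Helper120.Sylvester.F4 (x 0) (x 1) (x 2) (x 3)) := h
      exact (Helper120.Sylvester.exists_mem_iff x hx).2 (lt_of_le_of_ne (not_lt.1 h') hx)
  rw [h1, probReal_compl_eq_one_sub Helper120.Sylvester.measurableSet_pos]
  unfold Helper120.Sylvester.phi
  ring

lemma prob_cond (D : Set (ℝ × ℝ)) (hD : Admissible D) : IsProbabilityMeasure (cond volume D) :=
  cond_isProbabilityMeasure_of_finite hD.2.1.ne' hD.2.2.ne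

lemma value_cond (D : Set (ℝ × ℝ)) (hD : Admissible D) :
    1 - Sylv (cond volume D) = Helper120.Sylvester.phi (cond volume D) := by
  have := prob_cond D hD
  exact one_sub_Sylv _ (Y379.Sylv.LN_of_ac _ cond_absolutelyContinuous)

lemma isGLB_p : IsGLB values p := by
  refine isGLB_csInf ?_ ?_
  · refine ⟨_, Metric.ball (0 : ℝ × ℝ) 1, ⟨Metric.isOpen_ball.measurableSet.nullMeasurableSet,
      Metric.measure_ball_pos volume 0 one_pos, measure_ball_lt_top⟩, rfl⟩
  · refine ⟨0, ?_⟩
    rintro r ⟨D, hD, rfl⟩
    rw [value_cond D hD]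
    exact measureReal_nonneg

lemma p_le (μ : Measure (ℝ × ℝ)) [IsProbabilityMeasure μ] (h : Y379.Sylv.LN μ) :
    p ≤ 1 - Sylv μ := by
  rw [one_sub_Sylv μ h]
  refine Y379.Sylv.lower p (fun D hD => ?_) μ h
  rw [← value_cond D hD]
  exact isGLB_p.1 ⟨D, hD, rfl⟩

lemma ln_withDensity (μ : Measure (ℝ × ℝ)) (h : Y379.Sylv.LN μ) (f : ℝ × ℝ → ENNReal) :
    Y379.Sylv.LN (μ.withDensity f) :=
  fun v hv r => withDensity_absolutelyContinuous μ f (h v hv r)

lemma improvable (μ : Measure (ℝ × ℝ)) [IsProbabilityMeasure μ] (h : Y379.Sylv.LN μ)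
    (ht : Thick μ) : Improvable μ := by
  intro ε hε
  have h1 : 0 < min ε 1 := lt_min hε one_pos
  obtain ⟨g, hg, hb, hi, hlt⟩ := Y379.Sylv.improve μ h ht (min ε 1) h1
  refine ⟨g, hg, fun x => (hb x).trans (min_le_left _ _), hi, ?_⟩
  have hp : IsProbabilityMeasure (μ.withDensity fun x => ENNReal.ofReal (g x)) := by
    constructor
    have hnn : ∀ x, 0 ≤ g x := by
      intro x
      have := (abs_le.1 ((hb x).trans (min_le_right _ _))).1
      linarith
    have hintg : Integrable g μ := by
      refine Helper120.Sylvester.integrable_of_bdd μ _ hg 2 fun x => ?_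
      have := abs_le.1 ((hb x).trans (min_le_right _ _))
      rw [abs_le]; constructor <;> linarith
    rw [withDensity_apply _ MeasurableSet.univ, Measure.restrict_univ,
      ← ofReal_integral_eq_lintegral_ofReal hintg (Filter.Eventually.of_forall hnn), hi]
    simp
  rw [one_sub_Sylv _ (ln_withDensity μ h _), one_sub_Sylv μ h]
  exact hlt

lemma p_lt (μ : Measure (ℝ × ℝ)) [IsProbabilityMeasure μ] (h : Y379.Sylv.LN μ)
    (ht : Thick μ) : p < 1 - Sylv μ := by
  obtain ⟨g, hg, hb, hi, hlt⟩ := improvable μ h ht 1 one_pos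
  have hp : IsProbabilityMeasure (μ.withDensity fun x => ENNReal.ofReal (g x)) := by
    constructor
    have hnn : ∀ x, 0 ≤ g x := by
      intro x
      have := (abs_le.1 (hb x)).1
      linarith
    have hintg : Integrable g μ := by
      refine Helper120.Sylvester.integrable_of_bdd μ _ hg 2 fun x => ?_
      have := abs_le.1 (hb x)
      rw [abs_le]; constructor <;> linarith
    rw [withDensity_apply _ MeasurableSet.univ, Measure.restrict_univ,
      ← ofReal_integral_eq_lintegral_ofReal hintg (Filter.Eventually.of_forall hnn), hi]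
    simp
  exact lt_of_le_of_lt (p_le _ (ln_withDensity μ h _)) hlt

/-- (1) `p` is the greatest lower bound of `1 - Sylv` over all uniform distributions on sets of
positive finite area, and also over all Borel probability measures which do not charge lines;
(2) no absolutely continuous probability measure attains `p`, and none is a local minimiser;
(3) the same for all probability measures which do not charge lines and are thick in every direction
at almost every point; the absolutely continuous ones are of this kind. -/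
theorem result :
    (IsGLB values p ∧
      IsGLB {r : ℝ | ∃ μ : Measure (ℝ × ℝ), IsProbabilityMeasure μ ∧ LinesNull μ ∧
        r = 1 - Sylv μ} p) ∧
    (∀ μ : Measure (ℝ × ℝ), IsProbabilityMeasure μ → μ ≪ volume →
      p < 1 - Sylv μ ∧ Improvable μ) ∧
    ((∀ μ : Measure (ℝ × ℝ), IsProbabilityMeasure μ → LinesNull μ → Thick μ →
      p < 1 - Sylv μ ∧ Improvable μ) ∧
    ∀ μ : Measure (ℝ × ℝ), IsProbabilityMeasure μ → μ ≪ volume → LinesNull μ ∧ Thick μ) := by
  have hgen : ∀ μ : Measure (ℝ × ℝ), IsProbabilityMeasure μ → LinesNull μ → Thick μ →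
      p < 1 - Sylv μ ∧ Improvable μ := by
    intro μ hμ hl ht
    exact ⟨p_lt μ (ln_of μ hl) ht, improvable μ (ln_of μ hl) ht⟩
  have hac : ∀ μ : Measure (ℝ × ℝ), IsProbabilityMeasure μ → μ ≪ volume →
      LinesNull μ ∧ Thick μ := by
    intro μ hμ h
    exact ⟨ln_of_ac μ h, Y379.Sylv.dir_of_ac μ h⟩
  refine ⟨⟨isGLB_p, ?_, ?_⟩, fun μ hμ h => hgen μ hμ (hac μ hμ h).1 (hac μ hμ h).2, hgen, hac⟩
  · rintro r ⟨μ, hμ, hl, rfl⟩
    exact p_le μ (ln_of μ hl)
  · intro b hb
    refine isGLB_p.2 fun r hr => ?_
    obtain ⟨D, hD, rfl⟩ := hr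
    exact hb ⟨cond volume D, prob_cond D hD, ln_of_ac _ cond_absolutelyContinuous, rfl⟩

end Pool.Agent.Results.MP_4d3a90_co.NoLocalMinimum
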